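import Pool.Agent.Helper8.BR.Engine
import Pool.Agent.Helper3.BR.AdMink

/-! Project BR, block GLOB: end form. -/

set_option autoImplicit false

namespace Pool.Agent.Helper8.BR

open NumberField IsDedekindDomain Polynomial Module

/-- the engine -/
theorem engine : Pool.Agent.Helper45.BR.EngineStmt :=
  fun L _ _ hL d hd => engine_of L (fun ι => Pool.Agent.Helper3.BR.adelic_mink L hL ι) d hd

/-- **GLOB**: for a totally complex number field `L` and `m > 0` there is one number field over `L`
over which every central simple algebra of dimension `m ^ 2` that is split by all completions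
of `L` at finite places is split. -/
theorem glob (L : Type) [Field L] [NumberField L] (hL : ∀ w : InfinitePlace L, w.IsComplex)
    (m : ℕ) (hm : 0 < m) :
    ∃ (L' : Type) (_ : Field L') (_ : NumberField L') (_ : Algebra L L'),
      ∀ (A : Type) [Ring A] [Algebra L A] [Algebra.IsCentral L A] [IsSimpleRing A]
        [Module.Finite L A], finrank L A = m ^ 2 →
        (∀ w : HeightOneSpectrum (𝓞 L),
          Nonempty (A →ₐ[L] Matrix (Fin m) (Fin m) (w.adicCompletion L))) →
        Nonempty (A →ₐ[L] Matrix (Fin m) (Fin m) L') :=
  Pool.Agent.Helper45.BR.glob_of_engine engine L hL m hm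

end Pool.Agent.Helper8.BR
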