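import Pool.Agent.Helper8.BR.Defs
import Pool.Agent.Helper45.BR.Base

/-! Project BR, block GLOB: representations over the complex numbers. -/

set_option autoImplicit false

namespace Pool.Agent.Helper8.BR

open NumberField IsDedekindDomain Polynomial Module TensorProduct

/-- A1: representations over an algebraically closed field -/
theorem rep_algClosed {L D F : Type} [Field L] [Ring D] [Algebra L D] [Algebra.IsCentral L D]
    [IsSimpleRing D] [Module.Finite L D] [Field F] [IsAlgClosed F] [Algebra L F] {d : ℕ}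
    (hd : finrank L D = d ^ 2) : Nonempty (D →ₐ[L] Matrix (Fin d) (Fin d) F) := by
  have := Pool.Agent.Helper45.BR.isSimple_baseChange L F D
  obtain ⟨n, hn, ⟨e⟩⟩ := IsSimpleRing.exists_algEquiv_matrix_of_isAlgClosed F (F ⊗[L] D)
  have h1 : finrank F (F ⊗[L] D) = d ^ 2 := by
    rw [Module.finrank_baseChange, hd]
  have h2 : finrank F (Matrix (Fin n) (Fin n) F) = n ^ 2 := by
    rw [Module.finrank_matrix]
    simp [pow_two]
  have h3 : n ^ 2 = d ^ 2 := by
    rw [← h1, ← h2, e.toLinearEquiv.finrank_eq]
  have h4 : n = d := by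
    exact Nat.pow_left_injective (n := 2) (by norm_num) h3
  subst h4
  exact ⟨(e.toAlgHom.restrictScalars L).comp
    (Algebra.TensorProduct.includeRight : D →ₐ[L] F ⊗[L] D)⟩

theorem arch_rep {L D : Type} [Field L] [Ring D] [Algebra L D] [Algebra.IsCentral L D]
    [IsSimpleRing D] [Module.Finite L D] [Algebra L ℂ] {d : ℕ} (_hd0 : 0 < d)
    (hd : finrank L D = d ^ 2) : Nonempty (D →ₐ[L] Matrix (Fin d) (Fin d) ℂ) :=
  rep_algClosed hd

end Pool.Agent.Helper8.BR
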