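import Mathlib

/-! Project BR, block GLOB: definitions. -/

set_option autoImplicit false

namespace Pool.Agent.Helper8.BR

open NumberField IsDedekindDomain Polynomial Module

/-- the characteristic polynomial of left multiplication -/
noncomputable def chi (L : Type) {D : Type} [Field L] [Ring D] [Algebra L D] [Module.Finite L D]
    (x : D) : L[X] :=
  (LinearMap.mulLeft L x).charpoly

/-- the trace of left multiplication -/
noncomputable def tr (L : Type) {D : Type} [Field L] [Ring D] [Algebra L D] (x : D) : L :=
  LinearMap.trace L D (LinearMap.mulLeft L x)

/-- the determinant of the trace form -/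
noncomputable def disc (L : Type) {D ι : Type} [Field L] [Ring D] [Algebra L D] [Fintype ι]
    [DecidableEq ι] (b : ι → D) : L :=
  (Matrix.of fun k l => tr L (b k * b l)).det

/-- the matrix of a representation in a basis: rows are the entries, columns the basis elements -/
def repMat {D F : Type} {d : ℕ} [Field F] (φ : D → Matrix (Fin d) (Fin d) F)
    (b : Fin d × Fin d → D) : Matrix (Fin d × Fin d) (Fin d × Fin d) F :=
  Matrix.of fun p k => φ (b k) p.1 p.2

/-- the sign in the discriminant formula -/
def sgn (d : ℕ) : ℤ := (Equiv.Perm.sign (Equiv.prodComm (Fin d) (Fin d)) : ℤˣ)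

/-- integrality at `w` of the characteristic polynomial of left multiplication -/
def IntD {L D : Type} [Field L] [NumberField L] [Ring D] [Algebra L D] [Module.Finite L D]
    (w : HeightOneSpectrum (𝓞 L)) (x : D) : Prop :=
  ∀ i, w.valuation L ((chi L x).coeff i) ≤ 1

end Pool.Agent.Helper8.BR
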