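import Pool.Agent.Helper8.BR.Roots
import Pool.Agent.Helper8.BR.Arch
import Pool.Agent.Helper18.BR.Rep
import Pool.Agent.Helper16.BR.Ord
import Pool.Agent.Helper16.BR.RepInt
import Pool.Agent.Helper16.BR.Tr
import Pool.Agent.Helper45.BR.Iter

/-! Project BR, block GLOB: the engine. -/

set_option autoImplicit false

namespace Pool.Agent.Helper8.BR

open NumberField IsDedekindDomain Polynomial Module
open Pool.Agent.Helper18.BR (indep chi_rep trace_rep disc_rep det_ne)
open Pool.Agent.Helper16.BR (exists_order_basis good_int rep_int_of trace_zero not_scalar)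

/-- the adelic Minkowski theorem over `L` -/
def AdelicMink (L : Type) [Field L] [NumberField L] : Prop :=
  ∀ (ι : Type) [Fintype ι] [DecidableEq ι] [Nonempty ι],
    ∃ C : ℝ, 0 < C ∧ ∀ (Δ : L)
      (Φ : ∀ v : HeightOneSpectrum (𝓞 L), Matrix ι ι (v.adicCompletion L))
      (Ψ : InfinitePlace L → Matrix ι ι ℂ) (ρ : ι → ℝ), Δ ≠ 0 →
      (∀ v, Valued.v (Φ v).det ^ 2 = v.valuation L Δ) →
      (∀ w, ‖(Ψ w).det‖ ^ 2 = ‖w.embedding Δ‖) →
      {v | ¬ ∀ i j, Φ v i j ∈ v.adicCompletionIntegers L}.Finite →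
      (∀ i, 0 < ρ i) → C ≤ ∏ i, ρ i →
      ∃ x : ι → L, x ≠ 0 ∧
        (∀ v i, ((Φ v).mulVec (fun j => (x j : v.adicCompletion L))) i ∈
          v.adicCompletionIntegers L) ∧
        (∀ w i, ‖((Ψ w).mulVec (fun j => w.embedding (x j))) i‖ ≤ ρ i)

theorem chi_monic {L D : Type} [Field L] [Ring D] [Algebra L D] [Module.Finite L D] (x : D) :
    (chi L x).Monic := LinearMap.charpoly_monic _

theorem chi_natDegree {L D : Type} [Field L] [Ring D] [Algebra L D] [Module.Finite L D] (x : D) :
    (chi L x).natDegree = finrank L D := LinearMap.charpoly_natDegree _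

theorem aeval_chi {L D : Type} [Field L] [Ring D] [Algebra L D] [Module.Finite L D] (x : D) :
    aeval x (chi L x) = 0 := by
  have h1 := LinearMap.aeval_self_charpoly (LinearMap.mulLeft L x)
  have h2 : ∀ p : L[X], aeval (LinearMap.mulLeft L x) p = LinearMap.mulLeft L (aeval x p) := by
    intro p
    have h3 : LinearMap.mulLeft L x = Algebra.lmul L D x := rfl
    rw [h3, aeval_algHom_apply]
    rfl
  rw [h2] at h1
  have h4 := LinearMap.congr_fun h1 1
  simpa [chi] using h4

/-- finitely many places with `v(Δ) ≠ 1` -/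
theorem finite_ne_one {L : Type} [Field L] [NumberField L] {Δ : L} (hΔ : Δ ≠ 0) :
    {w : HeightOneSpectrum (𝓞 L) | w.valuation L Δ ≠ 1}.Finite := by
  refine ((HeightOneSpectrum.Support.finite (𝓞 L) Δ).union
    (HeightOneSpectrum.Support.finite (𝓞 L) Δ⁻¹)).subset ?_
  intro w hw
  rcases lt_or_gt_of_ne hw with h | h
  · right
    change 1 < w.valuation L Δ⁻¹
    rw [map_inv₀]
    exact (one_lt_inv₀ (by
      rw [Valuation.pos_iff]
      exact hΔ)).2 h
  · left
    exact h

theorem sgn_sq (d : ℕ) : sgn d * sgn d = 1 := by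
  unfold sgn
  rw [← Units.val_mul, Int.units_mul_self]
  rfl

/-- the matrix of a representation applied to coordinates -/
theorem repMat_mulVec {L D F : Type} [Field L] [Ring D] [Algebra L D] [Field F] [Algebra L F]
    {d : ℕ} (φ : D →ₐ[L] Matrix (Fin d) (Fin d) F) (b : Fin d × Fin d → D)
    (x : Fin d × Fin d → L) (p : Fin d × Fin d) :
    (repMat φ b).mulVec (fun k => algebraMap L F (x k)) p = φ (∑ k, x k • b k) p.1 p.2 := by
  rw [map_sum, Matrix.sum_apply]
  refine Finset.sum_congr rfl fun k _ => ?_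
  rw [map_smul, Matrix.smul_apply]
  change φ (b k) p.1 p.2 * algebraMap L F (x k) = _
  rw [Algebra.smul_def, mul_comm]

/-- ENGINE -/
theorem engine_of (L : Type) [Field L] [NumberField L] (hAM : AdelicMink L)
    (d : ℕ) (hd1 : 1 < d) :
    ∃ S : Set (AlgebraicClosure L), S.Finite ∧
      ∀ (D : Type) [Ring D] [Algebra L D] [Algebra.IsCentral L D] [IsSimpleRing D]
        [Module.Finite L D], finrank L D = d ^ 2 →
        (∀ w : HeightOneSpectrum (𝓞 L),
          Nonempty (D →ₐ[L] Matrix (Fin d) (Fin d) (w.adicCompletion L))) →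
        ∃ z : D, z ∉ Set.range (algebraMap L D) ∧ ∃ p : L[X], p.Monic ∧ aeval z p = 0 ∧
          ∀ lam : AlgebraicClosure L, aeval lam p = 0 → lam ∈ S := by
  classical
  have hd0 : 0 < d := by omega
  have hdr : (1 : ℝ) < d := by exact_mod_cast hd1
  let o : Fin d := ⟨0, hd0⟩
  have : Nonempty (Fin d × Fin d) := ⟨(o, o)⟩
  obtain ⟨C, hC, hmink⟩ := hAM (Fin d × Fin d)
  set ε : ℝ := 1 / (2 * d) with hε
  have hε0 : 0 < ε := by positivity
  set R : ℝ := max 1 (C / ε) with hR
  have hR1 : 1 ≤ R := le_max_left _ _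
  have hR0 : 0 < R := by linarith
  set E : ℝ := 1 + d * R with hE
  set B : ℝ := Fintype.card (Fin d × Fin d) * E with hB
  obtain ⟨S, hS, hroots⟩ := poly_roots_finite L (d ^ 2) B
  refine ⟨S, hS, ?_⟩
  intro D _ _ _ _ _ hd hrep
  obtain ⟨b, hb⟩ := exists_order_basis (L := L) (D := D) hd
  set κ : L := (sgn d : L) * (d : L) ^ (d ^ 2) with hκ
  have hdL : (d : L) ≠ 0 := by exact_mod_cast hd0.ne'
  have hsL : (sgn d : L) * (sgn d : L) = 1 := by
    have h := sgn_sq d
    exact_mod_cast h
  have hκ0 : κ ≠ 0 := by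
    rw [hκ]
    exact mul_ne_zero (left_ne_zero_of_mul_eq_one hsL) (pow_ne_zero _ hdL)
  set Δ : L := disc L b / κ with hΔ
  have key : ∀ {F : Type} [Field F] [Algebra L F] (φ : D →ₐ[L] Matrix (Fin d) (Fin d) F),
      (repMat φ b).det ^ 2 = algebraMap L F Δ := by
    intro F _ _ φ
    have h1 := disc_rep hd0 hd φ b
    have h2 : algebraMap L F κ = (sgn d : F) * (d : F) ^ (d ^ 2) := by
      rw [hκ, map_mul, map_pow, map_intCast, map_natCast]
    rw [← h2] at h1
    have h3 : algebraMap L F κ ≠ 0 := by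
      rw [Ne, map_eq_zero]
      exact hκ0
    rw [hΔ, map_div₀, h1, mul_div_cancel_left₀ _ h3]
  -- the representations at the infinite places
  have harch : ∀ v : InfinitePlace L, ∃ φ : D →+* Matrix (Fin d) (Fin d) ℂ,
      (∀ c : L, φ (algebraMap L D c) = Matrix.scalar (Fin d) (v.embedding c)) ∧
      (repMat φ b).det ^ 2 = v.embedding Δ ∧
      (∀ x : Fin d × Fin d → L, ∀ p : Fin d × Fin d,
        (repMat φ b).mulVec (fun k => v.embedding (x k)) p = φ (∑ k, x k • b k) p.1 p.2) ∧
      (∀ x : D, (chi L x).map v.embedding =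
        (Matrix.kronecker (φ x) (1 : Matrix (Fin d) (Fin d) ℂ)).charpoly) ∧
      (∀ x : D, v.embedding (tr L x) = d * (φ x).trace) := by
    intro v
    let _ := v.embedding.toAlgebra
    obtain ⟨φ⟩ := arch_rep (L := L) (D := D) hd0 hd
    refine ⟨φ.toRingHom, ?_, key φ, fun x p => repMat_mulVec φ b x p,
      fun x => chi_rep hd0 hd φ x, fun x => trace_rep hd0 hd φ x⟩
    intro c
    exact φ.commutes c
  choose ψ hψ1 hψ2 hψ3 hψ4 hψ5 using harch
  have hΔ0 : Δ ≠ 0 := by
    intro h0
    obtain ⟨v⟩ : Nonempty (InfinitePlace L) := inferInstance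
    let _ := v.embedding.toAlgebra
    obtain ⟨φ⟩ := arch_rep (L := L) (D := D) hd0 hd
    have h1 := key φ
    rw [h0, map_zero] at h1
    exact det_ne hd0 φ b (pow_eq_zero_iff two_ne_zero |>.1 h1)
  -- the representations at the finite places
  let φ := fun w => (hrep w).some
  let Φ : ∀ w : HeightOneSpectrum (𝓞 L),
      Matrix (Fin d × Fin d) (Fin d × Fin d) (w.adicCompletion L) := fun w =>
    if w.valuation L Δ = 1 then 1 else repMat (φ w) b
  let cc : Fin d × Fin d → ℂ := fun k => if k.1 = k.2 then 1 else 0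
  let Ψ : InfinitePlace L → Matrix (Fin d × Fin d) (Fin d × Fin d) ℂ := fun v =>
    (repMat (ψ v) b).updateRow (o, o) (∑ k, cc k • (repMat (ψ v) b) k)
  let ρ : Fin d × Fin d → ℝ := fun k => if k = (o, o) then ε else R
  obtain ⟨x, hx0, hxf, hxi⟩ := hmink Δ Φ Ψ ρ hΔ0 (by
    intro w
    by_cases h : w.valuation L Δ = 1
    · simp only [Φ, if_pos h, Matrix.det_one, map_one, one_pow, h]
    · simp only [Φ, if_neg h]
      rw [← map_pow, key (φ w)]
      exact HeightOneSpectrum.valuedAdicCompletion_eq_valuation' w Δ) (by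
    intro v
    have h1 : (Ψ v).det = (repMat (ψ v) b).det := by
      simp only [Ψ]
      rw [Matrix.det_updateRow_sum]
      simp [cc]
    rw [h1, ← norm_pow, hψ2 v]) (by
    refine (finite_ne_one hΔ0).subset ?_
    intro w hw
    by_contra h
    apply hw
    have h' : w.valuation L Δ = 1 := by
      by_contra h''
      exact h h''
    simp only [Φ, if_pos h']
    intro i j
    by_cases hij : i = j
    · subst hij
      rw [Matrix.one_apply_eq]
      exact one_mem _
    · rw [Matrix.one_apply_ne hij]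
      exact zero_mem _) (by
    intro i
    simp only [ρ]
    split_ifs
    · exact hε0
    · exact hR0) (by
    have h1 : ∏ i, ρ i = ε * ∏ i ∈ Finset.univ.erase (o, o), ρ i := by
      rw [← Finset.mul_prod_erase Finset.univ ρ (Finset.mem_univ (o, o))]
      simp only [ρ, if_true]
    have h2 : ∏ i ∈ Finset.univ.erase (o, o), ρ i = R ^ (d ^ 2 - 1) := by
      rw [Finset.prod_congr rfl (g := fun _ => R), Finset.prod_const,
        Finset.card_erase_of_mem (Finset.mem_univ _)]
      · simp [pow_two]
      · intro k hk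
        simp only [ρ, if_neg (Finset.ne_of_mem_erase hk)]
    have h3 : R ≤ R ^ (d ^ 2 - 1) := by
      apply le_self_pow₀ hR1
      have : 1 < d ^ 2 := by nlinarith
      omega
    rw [h1, h2]
    have h4 : C / ε ≤ R := le_max_right _ _
    rw [div_le_iff₀ hε0] at h4
    nlinarith)
  obtain ⟨z, hz⟩ : ∃ z : D, z = ∑ k, x k • b k := ⟨_, rfl⟩
  have hz0 : z ≠ 0 := by
    intro h
    apply hx0
    rw [hz] at h
    funext k
    have h1 := congrFun (b.repr_sum_self x) k
    rw [h, map_zero] at h1
    exact h1.symm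
  have hint : ∀ w : HeightOneSpectrum (𝓞 L), IntD w z := by
    intro w
    by_cases h : w.valuation L Δ = 1
    · rw [hz]
      refine good_int b hb w x fun k => ?_
      have h1 := hxf w k
      simp only [Φ, if_pos h, Matrix.one_mulVec] at h1
      rw [HeightOneSpectrum.mem_adicCompletionIntegers] at h1
      rwa [HeightOneSpectrum.valuedAdicCompletion_eq_valuation' w (x k)] at h1
    · refine rep_int_of w (φ w) z (chi_rep hd0 hd (φ w) z) fun i j => ?_
      have h1 := hxf w (i, j)
      simp only [Φ, if_neg h] at h1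
      rw [hz]
      have h2 := repMat_mulVec (φ w) b x (i, j)
      simp only at h2
      rw [← h2]
      exact h1
  have hent : ∀ (v : InfinitePlace L) (p : Fin d × Fin d), p ≠ (o, o) →
      ‖ψ v z p.1 p.2‖ ≤ R := by
    intro v p hp
    have h1 := hxi v p
    have h2 : (Ψ v).mulVec (fun j => v.embedding (x j)) p =
        (repMat (ψ v) b).mulVec (fun j => v.embedding (x j)) p := by
      simp only [Ψ, Matrix.mulVec, Matrix.updateRow_ne hp]
    rw [h2, hψ3 v x p, ← hz] at h1
    simpa only [ρ, if_neg hp] using h1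
  have htr : ∀ v : InfinitePlace L, ‖(ψ v z).trace‖ ≤ ε := by
    intro v
    have h1 := hxi v (o, o)
    have h2 : (Ψ v).mulVec (fun j => v.embedding (x j)) (o, o) =
        ∑ k, cc k * (repMat (ψ v) b).mulVec (fun j => v.embedding (x j)) k := by
      simp only [Ψ, Matrix.mulVec, Matrix.updateRow_self, dotProduct, Finset.sum_apply,
        Pi.smul_apply, smul_eq_mul, Finset.sum_mul, Finset.mul_sum]
      rw [Finset.sum_comm]
      refine Finset.sum_congr rfl fun i _ => Finset.sum_congr rfl fun j _ => ?_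
      ring
    rw [h2] at h1
    have h3 : ∑ k, cc k * (repMat (ψ v) b).mulVec (fun j => v.embedding (x j)) k =
        (ψ v z).trace := by
      have h4 : ∀ k, (repMat (ψ v) b).mulVec (fun j => v.embedding (x j)) k =
          ψ v z k.1 k.2 := fun k => by rw [hψ3 v x k, ← hz]
      simp only [h4, cc]
      rw [Fintype.sum_prod_type]
      simp [Matrix.trace]
    rw [h3] at h1
    simpa only [ρ, if_true] using h1
  have hE1 : ∀ (v : InfinitePlace L) (i j : Fin d), ‖ψ v z i j‖ ≤ E := by
    intro v i j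
    by_cases hij : (i, j) = (o, o)
    · have hi : i = o := (Prod.ext_iff.1 hij).1
      have hj : j = o := (Prod.ext_iff.1 hij).2
      have h1 : ψ v z i j = (ψ v z).trace - ∑ k ∈ Finset.univ.erase o, ψ v z k k := by
        rw [Matrix.trace, ← Finset.add_sum_erase Finset.univ (fun k => (ψ v z).diag k)
          (Finset.mem_univ o)]
        simp only [Matrix.diag_apply]
        rw [hi, hj]
        ring
      rw [h1]
      have h2 : ‖∑ k ∈ Finset.univ.erase o, ψ v z k k‖ ≤ (d - 1) * R := by
        refine (norm_sum_le _ _).trans ?_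
        refine (Finset.sum_le_card_nsmul _ _ R fun k hk => ?_).trans ?_
        · refine hent v (k, k) fun h => ?_
          exact Finset.ne_of_mem_erase hk (Prod.ext_iff.1 h).1
        · rw [Finset.card_erase_of_mem (Finset.mem_univ _), Finset.card_univ, Fintype.card_fin,
            nsmul_eq_mul, Nat.cast_sub hd0, Nat.cast_one]
      have h3 : ε ≤ 1 := by
        rw [hε, div_le_one (by positivity)]
        linarith
      refine (norm_sub_le _ _).trans ?_
      have h4 := htr v
      rw [hE]
      nlinarith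
    · refine (hent v (i, j) hij).trans ?_
      rw [hE]
      nlinarith
  have hE0 : 0 ≤ E := by rw [hE]; positivity
  refine ⟨z, ?_, chi L z, chi_monic z, aeval_chi z, ?_⟩
  · refine not_scalar (L := L) (D := D) (by rw [hd]; positivity) z hz0 ?_
    refine trace_zero hd z hint fun v => ?_
    rw [← InfinitePlace.norm_embedding_eq, hψ5 v z, norm_mul, Complex.norm_natCast]
    have h1 := htr v
    have h2 : (d : ℝ) * ε = 1 / 2 := by
      rw [hε]
      field_simp
    have h3 : (d : ℝ) * ‖(ψ v z).trace‖ ≤ d * ε := by gcongr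
    linarith
  · refine hroots (chi L z) (chi_monic z) (by rw [chi_natDegree, hd]) hint ?_
    intro v μ hμ
    rw [hψ4 v z] at hμ
    refine root_bound _ (fun p q => ?_) hμ
    change ‖ψ v z p.1 q.1 * (1 : Matrix (Fin d) (Fin d) ℂ) p.2 q.2‖ ≤ E
    rw [norm_mul]
    by_cases h : p.2 = q.2
    · rw [h, Matrix.one_apply_eq, norm_one, mul_one]
      exact hE1 v _ _
    · rw [Matrix.one_apply_ne h, norm_zero, mul_zero]
      exact hE0

/-- GLOB, from the adelic Minkowski theorem -/
theorem glob_of (hAM : ∀ (L : Type) [Field L] [NumberField L],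
    (∀ w : InfinitePlace L, w.IsComplex) → AdelicMink L)
    (L : Type) [Field L] [NumberField L] (hL : ∀ w : InfinitePlace L, w.IsComplex)
    (m : ℕ) (hm : 0 < m) :
    ∃ (L' : Type) (_ : Field L') (_ : NumberField L') (_ : Algebra L L'),
      ∀ (A : Type) [Ring A] [Algebra L A] [Algebra.IsCentral L A] [IsSimpleRing A]
        [Module.Finite L A], finrank L A = m ^ 2 →
        (∀ w : HeightOneSpectrum (𝓞 L),
          Nonempty (A →ₐ[L] Matrix (Fin m) (Fin m) (w.adicCompletion L))) →
        Nonempty (A →ₐ[L] Matrix (Fin m) (Fin m) L') :=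
  Pool.Agent.Helper45.BR.glob_of_engine
    (fun L _ _ hL d hd => engine_of L (hAM L hL) d hd) L hL m hm

end Pool.Agent.Helper8.BR
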