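import Pool.Agent.Helper8.BR.Defs

/-! Project BR, block GLOB: frame (text only, never import). -/

set_option autoImplicit false

namespace Pool.Agent.Helper8.BR.Frame

open NumberField IsDedekindDomain Polynomial Module Pool.Agent.Helper8.BR

section rep
variable {L D F : Type} [Field L] [Ring D] [Algebra L D] [Algebra.IsCentral L D] [IsSimpleRing D]
  [Module.Finite L D] [Field F] [Algebra L F] {d : ℕ}

/-- R1 -/
theorem indep (hd0 : 0 < d) {ι : Type} (b : Basis ι L D) (φ : D →ₐ[L] Matrix (Fin d) (Fin d) F) :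
    LinearIndependent F fun k => φ (b k) := by
  sorry

/-- R2 -/
theorem chi_rep (hd0 : 0 < d) (hd : finrank L D = d ^ 2) (φ : D →ₐ[L] Matrix (Fin d) (Fin d) F)
    (x : D) :
    (chi L x).map (algebraMap L F) =
      (Matrix.kronecker (φ x) (1 : Matrix (Fin d) (Fin d) F)).charpoly := by
  sorry

/-- R3 -/
theorem trace_rep (hd0 : 0 < d) (hd : finrank L D = d ^ 2)
    (φ : D →ₐ[L] Matrix (Fin d) (Fin d) F) (x : D) :
    algebraMap L F (tr L x) = d * (φ x).trace := by
  sorry

/-- R4 -/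
theorem disc_rep (hd0 : 0 < d) (hd : finrank L D = d ^ 2)
    (φ : D →ₐ[L] Matrix (Fin d) (Fin d) F) (b : Fin d × Fin d → D) :
    algebraMap L F (disc L b) = (sgn d : F) * (d : F) ^ (d ^ 2) * (repMat φ b).det ^ 2 := by
  sorry

/-- R5 -/
theorem det_ne (hd0 : 0 < d) (φ : D →ₐ[L] Matrix (Fin d) (Fin d) F)
    (b : Basis (Fin d × Fin d) L D) : (repMat φ b).det ≠ 0 := by
  sorry

end rep

section ord

variable {L D : Type} [Field L] [NumberField L] [Ring D] [Algebra L D] [Module.Finite L D]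

/-- O1 -/
theorem exists_order_basis {d : ℕ} (hd : finrank L D = d ^ 2) :
    ∃ b : Basis (Fin d × Fin d) L D,
      ∀ i j k, b.repr (b i * b j) k ∈ Set.range (algebraMap (𝓞 L) L) := by
  sorry

/-- O2 -/
theorem good_int {d : ℕ} (b : Basis (Fin d × Fin d) L D)
    (hb : ∀ i j k, b.repr (b i * b j) k ∈ Set.range (algebraMap (𝓞 L) L))
    (w : HeightOneSpectrum (𝓞 L)) (c : Fin d × Fin d → L) (hc : ∀ k, w.valuation L (c k) ≤ 1) :
    IntD w (∑ k, c k • b k) := by
  sorry

/-- O3 -/
theorem rep_int [Algebra.IsCentral L D] [IsSimpleRing D] {d : ℕ} (hd0 : 0 < d)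
    (hd : finrank L D = d ^ 2) (w : HeightOneSpectrum (𝓞 L))
    (φ : D →ₐ[L] Matrix (Fin d) (Fin d) (w.adicCompletion L)) (x : D)
    (hx : ∀ i j, φ x i j ∈ w.adicCompletionIntegers L) : IntD w x := by
  sorry

/-- O4: trace integral everywhere, small at infinity, hence zero -/
theorem trace_zero {N : ℕ} (hN : finrank L D = N) (x : D) (hx : ∀ w : HeightOneSpectrum (𝓞 L), IntD w x)
    (h : ∀ v : InfinitePlace L, v (tr L x) < 1) : tr L x = 0 := by
  sorry

/-- O5 -/
theorem not_scalar (hN : finrank L D ≠ 0) (x : D) (hx : x ≠ 0) (h : tr L x = 0) :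
    x ∉ Set.range (algebraMap L D) := by
  sorry

end ord

/-- A1: representations at the infinite places -/
theorem arch_rep {L D : Type} [Field L] [Ring D] [Algebra L D] [Algebra.IsCentral L D]
    [IsSimpleRing D] [Module.Finite L D] [Algebra L ℂ] {d : ℕ} (hd0 : 0 < d)
    (hd : finrank L D = d ^ 2) : Nonempty (D →ₐ[L] Matrix (Fin d) (Fin d) ℂ) := by
  sorry

/-- A2: the finite set of roots -/
theorem roots_finite (L : Type) [Field L] [NumberField L] (d : ℕ) (hd0 : 0 < d) (B : ℝ) :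
    ∃ S : Set (AlgebraicClosure L), S.Finite ∧
      ∀ (D : Type) [Ring D] [Algebra L D] [Algebra.IsCentral L D] [IsSimpleRing D]
        [Module.Finite L D], finrank L D = d ^ 2 → ∀ z : D,
        (∀ w : HeightOneSpectrum (𝓞 L), IntD w z) →
        (∀ v : InfinitePlace L, ∃ φ : D →+* Matrix (Fin d) (Fin d) ℂ,
          (∀ c : L, φ (algebraMap L D c) = Matrix.scalar (Fin d) (v.embedding c)) ∧
            ∀ i j, ‖φ z i j‖ ≤ B) →
        ∀ lam : AlgebraicClosure L, aeval lam (chi L z) = 0 → lam ∈ S := by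
  sorry

/-- ENGINE -/
theorem engine (L : Type) [Field L] [NumberField L] (hL : ∀ w : InfinitePlace L, w.IsComplex)
    (d : ℕ) (hd : 1 < d) :
    ∃ S : Set (AlgebraicClosure L), S.Finite ∧
      ∀ (D : Type) [Ring D] [Algebra L D] [Algebra.IsCentral L D] [IsSimpleRing D]
        [Module.Finite L D], finrank L D = d ^ 2 →
        (∀ w : HeightOneSpectrum (𝓞 L),
          Nonempty (D →ₐ[L] Matrix (Fin d) (Fin d) (w.adicCompletion L))) →
        ∃ z : D, z ∉ Set.range (algebraMap L D) ∧ ∃ p : L[X], p.Monic ∧ aeval z p = 0 ∧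
          ∀ lam : AlgebraicClosure L, aeval lam p = 0 → lam ∈ S := by
  sorry

/-- GLOB: end form -/
theorem glob (L : Type) [Field L] [NumberField L] (hL : ∀ w : InfinitePlace L, w.IsComplex)
    (m : ℕ) (hm : 0 < m) :
    ∃ (L' : Type) (_ : Field L') (_ : NumberField L') (_ : Algebra L L'),
      ∀ (A : Type) [Ring A] [Algebra L A] [Algebra.IsCentral L A] [IsSimpleRing A]
        [Module.Finite L A], finrank L A = m ^ 2 →
        (∀ w : HeightOneSpectrum (𝓞 L),
          Nonempty (A →ₐ[L] Matrix (Fin m) (Fin m) (w.adicCompletion L))) →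
        Nonempty (A →ₐ[L] Matrix (Fin m) (Fin m) L') := by
  sorry

end Pool.Agent.Helper8.BR.Frame
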