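import Pool.Agent.Helper8.BR.Defs
import Pool.Agent.Helper45.CL.Int

/-! Project BR, block GLOB: the finite set of roots. -/

set_option autoImplicit false

namespace Pool.Agent.Helper8.BR

open NumberField IsDedekindDomain Polynomial Module

/-- degree over `ℚ` -/
theorem natDegree_le_of_root' {L Ω : Type} [Field L] [NumberField L] [Field Ω] [CharZero Ω]
    [Algebra L Ω] {g : L[X]} (hg : g.Monic) {x : Ω} (hx : aeval x g = 0) :
    (minpoly ℚ x).natDegree ≤ Module.finrank ℚ L * g.natDegree := by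
  have hint : IsIntegral L x := ⟨g, hg, hx⟩
  have h1 : (minpoly L x).natDegree ≤ g.natDegree :=
    natDegree_le_of_dvd (minpoly.dvd L x hx) hg.ne_zero
  have hfin : FiniteDimensional L (IntermediateField.adjoin L {x}) :=
    IntermediateField.adjoin.finiteDimensional hint
  have htower : IsScalarTower ℚ L (IntermediateField.adjoin L {x}) := inferInstance
  have hfinQ : FiniteDimensional ℚ (IntermediateField.adjoin L {x}) :=
    FiniteDimensional.trans ℚ L _
  have h2 : (minpoly ℚ (IntermediateField.AdjoinSimple.gen L x)).natDegree ≤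
      Module.finrank ℚ (IntermediateField.adjoin L {x}) := minpoly.natDegree_le _
  have h3 : minpoly ℚ (IntermediateField.AdjoinSimple.gen L x) = minpoly ℚ x := by
    have h4 := minpoly.algebraMap_eq (A := ℚ)
      (B' := Ω) (algebraMap (IntermediateField.adjoin L {x}) Ω).injective
      (IntermediateField.AdjoinSimple.gen L x)
    rw [IntermediateField.AdjoinSimple.algebraMap_gen] at h4
    exact h4.symm
  rw [h3, ← Module.finrank_mul_finrank ℚ L, IntermediateField.adjoin.finrank hint] at h2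
  exact h2.trans (Nat.mul_le_mul_left _ h1)

/-- a polynomial with integral coefficients and bounded roots has its roots in a finite set -/
theorem poly_roots_finite (L : Type) [Field L] [NumberField L] (n : ℕ) (B : ℝ) :
    ∃ S : Set (AlgebraicClosure L), S.Finite ∧
      ∀ g : L[X], g.Monic → g.natDegree ≤ n →
        (∀ w : HeightOneSpectrum (𝓞 L), ∀ i, w.valuation L (g.coeff i) ≤ 1) →
        (∀ (v : InfinitePlace L) (μ : ℂ), (g.map v.embedding).eval μ = 0 → ‖μ‖ ≤ B) →
        ∀ lam : AlgebraicClosure L, aeval lam g = 0 → lam ∈ S := by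
  classical
  set Ω := AlgebraicClosure L
  have halgQ : Algebra.IsAlgebraic ℚ Ω := by
    have : Algebra.IsAlgebraic ℚ L := inferInstance
    exact Algebra.IsAlgebraic.trans ℚ L Ω
  refine ⟨_, Pool.Agent.Helper45.CL.fin_set Ω (Module.finrank ℚ L * n) B, ?_⟩
  intro g hg hn hw hv lam hlam
  refine ⟨?_, ?_, ?_⟩
  · refine Pool.Agent.Helper45.CL.integral_of_intAt (L := L) fun v => ?_
    exact ⟨g, hg, fun i => hw v i, hlam⟩
  · exact (natDegree_le_of_root' hg hlam).trans (Nat.mul_le_mul_left _ hn)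
  · intro ψ
    set σ : L →+* ℂ := ψ.comp (algebraMap L Ω) with hσ
    have h1 : (g.map σ).eval (ψ lam) = 0 := by
      rw [eval_map, hσ, ← hom_eval₂, ← aeval_def, hlam, map_zero]
    rcases InfinitePlace.embedding_mk_eq σ with h | h
    · exact hv (InfinitePlace.mk σ) (ψ lam) (by rw [h]; exact h1)
    · have h2 : (g.map (ComplexEmbedding.conjugate σ)).eval (starRingEnd ℂ (ψ lam)) = 0 := by
        have h3 : ComplexEmbedding.conjugate σ = (starRingEnd ℂ).comp σ := by
          ext x
          rfl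
        rw [h3, ← Polynomial.map_map, eval_map, eval₂_hom, h1, map_zero]
      have h4 := hv (InfinitePlace.mk σ) (starRingEnd ℂ (ψ lam)) (by rw [h]; exact h2)
      rwa [RCLike.norm_conj] at h4

/-- eigenvalues of a matrix with bounded entries -/
theorem root_bound {ι : Type} [Fintype ι] [DecidableEq ι] (M : Matrix ι ι ℂ) {B : ℝ}
    (hB : ∀ i j, ‖M i j‖ ≤ B) {μ : ℂ} (hμ : M.charpoly.eval μ = 0) :
    ‖μ‖ ≤ Fintype.card ι * B := by
  classical
  obtain ⟨f, hf0, hf⟩ : ∃ f : ι → ℂ, f ≠ 0 ∧ M.mulVec f = μ • f := by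
    have h1 : (Matrix.scalar ι μ - M).det = 0 := by
      rw [← Matrix.eval_charpoly, hμ]
    obtain ⟨f, hf0, hf⟩ := Matrix.exists_mulVec_eq_zero_iff.2 h1
    refine ⟨f, hf0, ?_⟩
    rw [Matrix.sub_mulVec, sub_eq_zero] at hf
    rw [← hf]
    ext i
    simp [Matrix.scalar, Matrix.mulVec_diagonal]
  have hne : Nonempty ι := by
    by_contra h
    rw [not_nonempty_iff] at h
    exact hf0 (Subsingleton.elim _ _)
  obtain ⟨i, hi⟩ := Finite.exists_max fun i => ‖f i‖
  have hi0 : 0 < ‖f i‖ := by
    rw [norm_pos_iff]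
    intro h
    apply hf0
    funext j
    have h1 := hi j
    rw [h, norm_zero] at h1
    exact norm_le_zero_iff.1 h1
  have h1 : ‖μ‖ * ‖f i‖ ≤ (Fintype.card ι * B) * ‖f i‖ := by
    calc ‖μ‖ * ‖f i‖ = ‖(M.mulVec f) i‖ := by rw [hf, Pi.smul_apply, norm_smul]
      _ = ‖∑ j, M i j * f j‖ := rfl
      _ ≤ ∑ j, ‖M i j * f j‖ := norm_sum_le _ _
      _ ≤ ∑ _j : ι, B * ‖f i‖ := by
          refine Finset.sum_le_sum fun j _ => ?_
          rw [norm_mul]
          exact mul_le_mul (hB i j) (hi j) (norm_nonneg _) ((norm_nonneg _).trans (hB i j))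
      _ = (Fintype.card ι * B) * ‖f i‖ := by
          rw [Finset.sum_const, Finset.card_univ, nsmul_eq_mul, mul_assoc]
  exact le_of_mul_le_mul_right h1 hi0

end Pool.Agent.Helper8.BR
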